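import Mathlib

/-!
# Noetherian bases whose rank cannot be lowered by passing to a subfamily

The ordinal `ω + 1` with the topology of its final segments carries a Noetherian base of rank
`ω + 1` which is contained in every base made of its members.
-/

namespace Pool.Agent.Results.MP_5675d3_gt.RankNotLowerable

open Set Ordinal

universe u

/-- A Noetherian family: non-empty, not containing `∅`, without infinite strictly increasing
sequences of members. -/
def IsNoetherianFamily {X : Type u} (𝒜 : Set (Set X)) : Prop :=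
  𝒜.Nonempty ∧ ∅ ∉ 𝒜 ∧ ¬ ∃ f : ℕ → Set X, (∀ n, f n ∈ 𝒜) ∧ ∀ n, f n ⊂ f (n + 1)

/-- A Noetherian base of `X`. -/
def IsNoetherianBase {X : Type u} [TopologicalSpace X] (𝒜 : Set (Set X)) : Prop :=
  IsNoetherianFamily 𝒜 ∧ TopologicalSpace.IsTopologicalBasis 𝒜

/-- The `i`-th layer: the `⊆`-maximal elements of `𝒜` with all earlier layers removed. -/
def layer {X : Type u} (𝒜 : Set (Set X)) (i : Ordinal.{u}) : Set (Set X) :=
  {A | (A ∈ 𝒜 ∧ ∀ j, j < i → A ∉ layer 𝒜 j) ∧
    ∀ B, (B ∈ 𝒜 ∧ ∀ j, j < i → B ∉ layer 𝒜 j) → A ⊆ B → B = A}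
termination_by i

/-- The rank: the least ordinal `α` such that `𝒜` is the union of the layers below `α`. -/
noncomputable def rank {X : Type u} (𝒜 : Set (Set X)) : Ordinal.{u} :=
  sInf {α : Ordinal.{u} | 𝒜 = ⋃ i ∈ Set.Iio α, layer 𝒜 i}

theorem mem_layer {X : Type u} (𝒜 : Set (Set X)) (i : Ordinal.{u}) (A : Set X) :
    A ∈ layer 𝒜 i ↔ ((A ∈ 𝒜 ∧ ∀ j, j < i → A ∉ layer 𝒜 j) ∧
    ∀ B, (B ∈ 𝒜 ∧ ∀ j, j < i → B ∉ layer 𝒜 j) → A ⊆ B → B = A) := by
  rw [layer]
  rfl

section

variable (α : Ordinal.{0})

/-- the family of all closed final segments of the ordinal `α`. -/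
def segs : Set (Set α.ToType) := Set.range (fun x : α.ToType => Set.Ici x)

theorem layer_segs (x : α.ToType) :
    layer (segs α) (typein (α := α.ToType) (· < ·) x) = {Set.Ici x} := by
  induction x using WellFoundedLT.induction with
  | ind x ih =>
    have key : ∀ y : α.ToType,
        (Set.Ici y ∈ segs α ∧ ∀ j, j < typein (α := α.ToType) (· < ·) x →
          Set.Ici y ∉ layer (segs α) j) ↔ x ≤ y := by
      intro y
      constructor
      · rintro ⟨-, h⟩
        by_contra hxy
        push Not at hxy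
        have h1 := h (typein (α := α.ToType) (· < ·) y) ((typein_lt_typein (· < ·)).2 hxy)
        rw [ih y hxy] at h1
        exact h1 rfl
      · intro hxy
        refine ⟨⟨y, rfl⟩, ?_⟩
        intro j hj
        obtain ⟨z, rfl⟩ : ∃ z : α.ToType, typein (α := α.ToType) (· < ·) z = j :=
          typein_surj _ (hj.trans (typein_lt_type _ _))
        have hzx : z < x := (typein_lt_typein (· < ·)).1 hj
        rw [ih z hzx]
        intro h
        have h' : Set.Ici y = Set.Ici z := h
        have : y = z := Set.Ici_injective h'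
        exact absurd (this ▸ hxy : x ≤ z) (not_le.2 hzx)
    ext A
    rw [mem_layer]
    constructor
    · rintro ⟨⟨hA, hA'⟩, hmax⟩
      obtain ⟨y, rfl⟩ := hA
      have hxy : x ≤ y := (key y).1 ⟨⟨y, rfl⟩, hA'⟩
      have := hmax (Set.Ici x) ((key x).2 le_rfl) (Set.Ici_subset_Ici.2 hxy)
      exact this.symm
    · rintro rfl
      refine ⟨(key x).2 le_rfl, ?_⟩
      intro B hB hsub
      obtain ⟨y, rfl⟩ := hB.1
      have hxy : x ≤ y := (key y).1 hB
      exact subset_antisymm (Set.Ici_subset_Ici.2 hxy) hsub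

theorem rank_segs : rank (segs α) = α := by
  apply le_antisymm
  · apply csInf_le'
    show segs α = _
    ext A
    simp only [Set.mem_iUnion, Set.mem_Iio, exists_prop]
    constructor
    · rintro ⟨x, rfl⟩
      refine ⟨typein (α := α.ToType) (· < ·) x, ?_, ?_⟩
      · have := typein_lt_type (α := α.ToType) (· < ·) x
        rwa [type_toType] at this
      · rw [layer_segs]
        rfl
    · rintro ⟨i, -, hi⟩
      rw [mem_layer] at hi
      exact hi.1.1
  · by_contra hlt
    push Not at hlt
    have hmem : rank (segs α) ∈ {β : Ordinal | segs α = ⋃ i ∈ Set.Iio β, layer (segs α) i} := by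
      apply csInf_mem
      refine ⟨α, ?_⟩
      show segs α = _
      ext A
      simp only [Set.mem_iUnion, Set.mem_Iio, exists_prop]
      constructor
      · rintro ⟨x, rfl⟩
        refine ⟨typein (α := α.ToType) (· < ·) x, ?_, ?_⟩
        · have := typein_lt_type (α := α.ToType) (· < ·) x
          rwa [type_toType] at this
        · rw [layer_segs]
          rfl
      · rintro ⟨i, -, hi⟩
        rw [mem_layer] at hi
        exact hi.1.1
    obtain ⟨x, hx⟩ : ∃ x : α.ToType, typein (α := α.ToType) (· < ·) x = rank (segs α) := by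
      apply typein_surj
      rwa [type_toType]
    have h1 : Set.Ici x ∈ segs α := ⟨x, rfl⟩
    have h2 : Set.Ici x ∈ ⋃ i ∈ Set.Iio (rank (segs α)), layer (segs α) i := by
      have : segs α = ⋃ i ∈ Set.Iio (rank (segs α)), layer (segs α) i := hmem
      rw [← this]
      exact h1
    simp only [Set.mem_iUnion, Set.mem_Iio, exists_prop] at h2
    obtain ⟨i, hi, hxi⟩ := h2
    rw [← hx] at hi
    obtain ⟨z, rfl⟩ : ∃ z : α.ToType, typein (α := α.ToType) (· < ·) z = i :=
      typein_surj _ (hi.trans (typein_lt_type _ _))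
    have hzx : z < x := (typein_lt_typein (· < ·)).1 hi
    rw [layer_segs] at hxi
    have : Set.Ici x = Set.Ici z := hxi
    exact hzx.ne (Set.Ici_injective this).symm

end

theorem result :
    ∃ (X : Type) (_ : TopologicalSpace X) (ℬ : Set (Set X)),
      IsNoetherianBase ℬ ∧ rank ℬ ≠ (rank ℬ).card.ord ∧
      ∀ ℬ' : Set (Set X), ℬ' ⊆ ℬ → IsNoetherianBase ℬ' → (rank ℬ).card.ord < rank ℬ' := by
  let α : Ordinal.{0} := ω + 1
  letI τ : TopologicalSpace α.ToType := Topology.upperSet α.ToType
  haveI : Topology.IsUpperSet α.ToType := ⟨rfl⟩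
  have hα : α.card.ord = ω := by
    simp [α, Ordinal.card_add]
  have hlt : ω < α := by
    simp only [α]
    exact lt_add_of_pos_right _ one_pos
  have hbase : TopologicalSpace.IsTopologicalBasis (segs α) := by
    apply TopologicalSpace.isTopologicalBasis_of_isOpen_of_nhds
    · rintro _ ⟨x, rfl⟩
      rw [Topology.IsUpperSet.isOpen_iff_isUpperSet]
      exact isUpperSet_Ici x
    · intro a U ha hU
      rw [Topology.IsUpperSet.isOpen_iff_isUpperSet] at hU
      exact ⟨Set.Ici a, ⟨a, rfl⟩, Set.self_mem_Ici, fun b hb => hU hb ha⟩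
  have hne : ∃ x : α.ToType, True := by
    have : 0 < α := lt_of_lt_of_le omega0_pos hlt.le
    have hx := (Ordinal.toType_nonempty_iff_ne_zero).2 this.ne'
    exact ⟨hx.some, trivial⟩
  have hnoeth : IsNoetherianFamily (segs α) := by
    refine ⟨?_, ?_, ?_⟩
    · obtain ⟨x, -⟩ := hne
      exact ⟨Set.Ici x, x, rfl⟩
    · rintro ⟨x, hx⟩
      have : x ∈ (∅ : Set α.ToType) := hx ▸ Set.self_mem_Ici
      exact this
    · rintro ⟨f, hf, hf'⟩
      choose g hg using hf
      have hdec : ∀ n, g (n + 1) < g n := by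
        intro n
        have := hf' n
        rw [← hg n, ← hg (n + 1)] at this
        exact Set.Ici_ssubset_Ici.1 this
      exact (RelEmbedding.natGT g hdec).not_wellFounded (wellFounded_lt)
  refine ⟨α.ToType, τ, segs α, ⟨hnoeth, hbase⟩, ?_, ?_⟩
  · rw [rank_segs, hα]
    exact hlt.ne'
  · intro ℬ' hsub hℬ'
    have heq : ℬ' = segs α := by
      apply subset_antisymm hsub
      rintro _ ⟨x, rfl⟩
      have hopen : IsOpen (Set.Ici x) := by
        rw [Topology.IsUpperSet.isOpen_iff_isUpperSet]
        exact isUpperSet_Ici x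
      obtain ⟨B, hB, hxB, hBx⟩ := hℬ'.2.exists_subset_of_mem_open
        (Set.self_mem_Ici : x ∈ Set.Ici x) hopen
      obtain ⟨y, rfl⟩ := hsub hB
      have h1 : y ≤ x := hxB
      have h2 : x ≤ y := hBx Set.self_mem_Ici
      have : x = y := le_antisymm h2 h1
      subst this
      exact hB
    rw [heq, rank_segs, hα]
    exact hlt

end Pool.Agent.Results.MP_5675d3_gt.RankNotLowerable
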